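import Mathlib

/-!
The five-sum conjecture of problem MP_fc29f1_nt, stated in full, fails at `p = 7`
(for the sum `S2` with argument `-1/27`).
-/

set_option autoImplicit false

namespace Pool.Agent.Results.MP_fc29f1_nt.FailsAtSeven

/-- The generalized binomial coefficient `a (a-1) ... (a-k+1) / k!` for rational `a`. -/
def gbinom (a : ℚ) (k : ℕ) : ℚ :=
  (∏ i ∈ Finset.range k, (a - (i : ℚ))) / (Nat.factorial k : ℚ)

/-- `∑_{k=0}^{p-1} binom(a,k) binom(b,k) z^k`. -/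
def truncSum (a b z : ℚ) (p : ℕ) : ℚ :=
  ∑ k ∈ Finset.range p, gbinom a k * gbinom b k * z ^ k

/-- The sum `S₁`. -/
def S1 (p : ℕ) : ℚ := truncSum (-1/2) (-1/3) (-3) p
/-- The sum `S₂`. -/
def S2 (p : ℕ) : ℚ := truncSum (-1/2) (-1/3) (1/(-27)) p
/-- The sum `S₃`. -/
def S3 (p : ℕ) : ℚ := truncSum (-1/2) (-2/3) (1/(-4)) p
/-- The sum `S₄`. -/
def S4 (p : ℕ) : ℚ := truncSum (-1/2) (-1/3) (1/5) p
/-- The sum `S₅`. -/
def S5 (p : ℕ) : ℚ := truncSum (-1/2) (-1/3) 2 p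

/-- `u ≡ v (mod p^m)` for rationals: `u - v = p^m * (a / b)` for integers `a`, `b` with `p ∤ b`,
that is, the `p`-adic valuation of `u - v` is at least `m`. -/
def Cong (p m : ℕ) (u v : ℚ) : Prop :=
  ∃ a b : ℤ, ¬ ((p : ℤ) ∣ b) ∧ u - v = (p : ℚ) ^ m * ((a : ℚ) / (b : ℚ))

/-- Part (a) of the question for the prime `p`. -/
def PartA (p : ℕ) : Prop :=
  p % 3 = 1 → ∀ A B : ℤ, (p : ℤ) = A ^ 2 + 3 * B ^ 2 → (3 : ℤ) ∣ A - 1 →
    Cong p 2 (S1 p) (2 * A - p / (2 * A)) ∧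
    Cong p 2 (S2 p) (2 * A - p / (2 * A)) ∧
    Cong p 2 (S3 p) (2 * A - p / (2 * A)) ∧
    Cong p 2 ((jacobiSym (p : ℤ) 5 : ℚ) * S4 p) (2 * A - p / (2 * A)) ∧
    Cong p 2 ((jacobiSym (-1) p : ℚ) * S5 p) (2 * A - p / (2 * A))

/-- Part (b) of the question for the prime `p`. -/
def PartB (p : ℕ) : Prop :=
  p % 3 = 2 → Cong p 1 (S1 p) 0 ∧ Cong p 1 (S2 p) 0 ∧ Cong p 1 (S3 p) 0 ∧
    Cong p 1 (S4 p) 0 ∧ Cong p 1 (S5 p) 0

theorem S2_seven : S2 7 = 215591174128891 / 216905884017408 := by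
  simp only [S2, truncSum, gbinom, Finset.sum_range_succ, Finset.prod_range_succ,
    Finset.sum_range_zero, Finset.prod_range_zero, Nat.factorial]
  norm_num

theorem result : ¬ ∀ p : ℕ, p.Prime → 5 < p → PartA p ∧ PartB p := by
  intro h
  have h7 := (h 7 (by norm_num) (by norm_num)).1 (by norm_num) (-2) 1 (by norm_num) (by norm_num)
  obtain ⟨a, b, hb, hab⟩ := h7.2.1
  rw [S2_seven] at hab
  have hb0 : (b : ℚ) ≠ 0 := by
    intro h0
    apply hb
    have : b = 0 := by exact_mod_cast h0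
    simp [this]
  have e1 : (215591174128891 / 216905884017408 : ℚ)
      - (2 * ((-2 : ℤ) : ℚ) - ((7 : ℕ) : ℚ) / (2 * ((-2 : ℤ) : ℚ)))
      = 703629413168059 / 216905884017408 := by push_cast; norm_num
  rw [e1] at hab
  have e2 : (703629413168059 / 216905884017408 : ℚ) * b
      = ((7 : ℕ) : ℚ) ^ 2 * ((a : ℚ) / (b : ℚ)) * b := by rw [hab]
  have e3 : ((7 : ℕ) : ℚ) ^ 2 * ((a : ℚ) / (b : ℚ)) * b = 49 * a := by
    rw [mul_assoc, div_mul_cancel₀ _ hb0]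
    norm_num
  rw [e3] at e2
  have hab' : (100518487595437 : ℚ) * b = 7 * (216905884017408 * a) := by
    have h2 : (b : ℚ) = 49 * a * (216905884017408 / 703629413168059) := by
      rw [← e2]; ring
    rw [h2]; ring
  have hab2 : (100518487595437 : ℤ) * b = 7 * (216905884017408 * a) := by
    have h3 := hab'
    norm_cast at h3
  apply hb
  have h4 : (7 : ℤ) ∣ 100518487595437 * b := ⟨216905884017408 * a, hab2⟩
  have h5 : IsCoprime (7 : ℤ) 100518487595437 := by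
    rw [Int.isCoprime_iff_gcd_eq_one]; norm_num
  exact_mod_cast h5.dvd_of_dvd_mul_left h4

end Pool.Agent.Results.MP_fc29f1_nt.FailsAtSeven
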